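import Pool.Agent.Helper28.T3E.StE

/-!
# Project T3E, module RB: the third relation of `nu`
-/

set_option autoImplicit false

namespace Pool.Agent.Helper6.T3E

open Pool.Agent.Helper28.T3E

/-- The floor sum. -/
private def Ef (e : ℕ) (d : ℤ) : ℤ :=
  d / 3 - ∑ k ∈ Finset.range ((e + 1) / 3),
    ((3 * (k : ℤ) + 2) * d / (3 * (e : ℤ)) - (3 * (k : ℤ) + 1) * d / (3 * (e : ℤ)))

private theorem Ef_add (e : ℕ) (he : 0 < e) (d : ℤ) :
    Ef e (d + 3 * (e : ℤ)) = Ef e d + (e : ℤ) - (((e + 1) / 3 : ℕ) : ℤ) := by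
  unfold Ef
  have h0 : (3 * (e : ℤ)) ≠ 0 := by positivity
  have h1 : ∀ k : ℕ, ((3 * (k : ℤ) + 2) * (d + 3 * (e : ℤ)) / (3 * (e : ℤ)) -
      (3 * (k : ℤ) + 1) * (d + 3 * (e : ℤ)) / (3 * (e : ℤ))) =
      ((3 * (k : ℤ) + 2) * d / (3 * (e : ℤ)) - (3 * (k : ℤ) + 1) * d / (3 * (e : ℤ))) + 1 := by
    intro k
    rw [mul_add, mul_add, Int.add_mul_ediv_right _ _ h0, Int.add_mul_ediv_right _ _ h0]
    ring
  simp only [h1]
  rw [Finset.sum_add_distrib]
  simp only [Finset.sum_const, Finset.card_range, nsmul_eq_mul, mul_one]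
  have h2 : (d + 3 * (e : ℤ)) / 3 = d / 3 + e := by omega
  rw [h2]
  ring

private theorem neg_div_of (a c : ℤ) (hc : 0 < c) (h : ¬ c ∣ a) : (-a) / c = -(a / c) - 1 := by
  rw [Int.neg_ediv, if_neg h, Int.sign_eq_one_of_pos hc]

private theorem ndvd3 (k d : ℤ) (e : ℤ) (t : ℤ) (ht : t = 1 ∨ t = 2) (hd : d % 3 ≠ 0) :
    ¬ (3 * e) ∣ (3 * k + t) * d := by
  intro h
  have h3 : (3 : ℤ) ∣ (3 * k + t) * d := dvd_trans (Dvd.intro _ rfl) h
  rcases Int.Prime.dvd_mul' Nat.prime_three (by exact_mod_cast h3) with h4 | h4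
  · have : (3 : ℤ) ∣ 3 * k + t := by exact_mod_cast h4
    rcases ht with rfl | rfl <;> omega
  · have : (3 : ℤ) ∣ d := by exact_mod_cast h4
    omega

private theorem Ef_neg (e : ℕ) (he : 0 < e) (d : ℤ) (hd : d % 3 ≠ 0) : Ef e (-d) = -1 - Ef e d := by
  unfold Ef
  have h0 : (0 : ℤ) < (3 * (e : ℤ)) := by positivity
  have h1 : ∀ k : ℕ, ((3 * (k : ℤ) + 2) * (-d) / (3 * (e : ℤ)) -
      (3 * (k : ℤ) + 1) * (-d) / (3 * (e : ℤ))) =
      -((3 * (k : ℤ) + 2) * d / (3 * (e : ℤ)) - (3 * (k : ℤ) + 1) * d / (3 * (e : ℤ))) := by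
    intro k
    rw [mul_neg, mul_neg, neg_div_of _ _ h0 (ndvd3 _ _ _ 2 (Or.inr rfl) hd),
      neg_div_of _ _ h0 (ndvd3 _ _ _ 1 (Or.inl rfl) hd)]
    ring
  simp only [h1]
  rw [Finset.sum_neg_distrib]
  have h2 : (-d) / 3 = -(d / 3) - 1 := by omega
  rw [h2]
  ring

private theorem Ne_congr (b b' d d' : ℤ) (h : d.natAbs = d'.natAbs) (hpos : 0 < d.natAbs)
    (hb : (d.natAbs : ℤ) ∣ b - b' ∨ (d.natAbs : ℤ) ∣ b + b') : Helper28.T3E.Ne b d = Helper28.T3E.Ne b' d' := by
  unfold Helper28.T3E.Ne
  rw [← h]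
  generalize hD : d.natAbs = D at *
  have hDp : (0 : ℤ) < (D : ℤ) := by exact_mod_cast hpos
  congr 1
  apply congrArg Finset.card
  apply Finset.filter_congr
  intro j _
  have key : (3 * (b * (j : ℤ) % (D : ℤ)) < D ∨ 2 * (D : ℤ) < 3 * (b * (j : ℤ) % (D : ℤ))) ↔
      (3 * (b' * (j : ℤ) % (D : ℤ)) < D ∨ 2 * (D : ℤ) < 3 * (b' * (j : ℤ) % (D : ℤ))) := by
    have r1 := Int.emod_nonneg (b * (j : ℤ)) hDp.ne'
    have r2 := Int.emod_lt_of_pos (b * (j : ℤ)) hDp
    have s1 := Int.emod_nonneg (b' * (j : ℤ)) hDp.ne'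
    have s2 := Int.emod_lt_of_pos (b' * (j : ℤ)) hDp
    have e1 := Int.mul_ediv_add_emod (b * (j : ℤ)) (D : ℤ)
    have e2 := Int.mul_ediv_add_emod (b' * (j : ℤ)) (D : ℤ)
    rcases hb with ⟨c, hc⟩ | ⟨c, hc⟩
    · have : b * (j : ℤ) % (D : ℤ) = b' * (j : ℤ) % (D : ℤ) := by
        have hb2 : b * (j : ℤ) = b' * (j : ℤ) + (D : ℤ) * (c * j) := by
          have : b = b' + D * c := by linarith
          rw [this]; ring
        rw [hb2, Int.add_mul_emod_self_left]
      rw [this]
    · set r := b * (j : ℤ) % (D : ℤ) with hr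
      set s := b' * (j : ℤ) % (D : ℤ) with hs
      have hdv : (D : ℤ) ∣ r + s := by
        refine ⟨c * j - b * (j : ℤ) / D - b' * (j : ℤ) / D, ?_⟩
        have hb2 : b * (j : ℤ) + b' * (j : ℤ) = (D : ℤ) * (c * j) := by
          have : b * (j : ℤ) + b' * (j : ℤ) = (b + b') * j := by ring
          rw [this, hc]; ring
        linarith
      obtain ⟨m, hm⟩ := hdv
      have hm0 : 0 ≤ m := by
        by_contra hneg
        push Not at hneg
        nlinarith
      have hm2 : m < 2 := by
        by_contra hneg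
        push Not at hneg
        nlinarith
      have hm1 : m = 0 ∨ m = 1 := by omega
      rcases hm1 with rfl | rfl
      · constructor <;> intro _ <;> left <;> linarith
      · constructor
        · rintro (h1 | h1)
          · right; linarith
          · left; linarith
        · rintro (h1 | h1)
          · right; linarith
          · left; linarith
  rw [key]

private theorem Ne_eq (e D : ℕ) (he : 0 < e) (hD : D % 3 ≠ 0) : Helper28.T3E.Ne (e : ℤ) (D : ℤ) = Ef e D := by
  have hD0 : 0 < D := by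
    rcases Nat.eq_zero_or_pos D with h | h
    · subst h; simp at hD
    · exact h
  unfold Helper28.T3E.Ne Ef
  simp only [Int.natAbs_natCast]
  -- natural number form of the condition
  have hcast : ∀ j : ℕ, ((e : ℤ) * (j : ℤ)) % (D : ℤ) = ((e * j % D : ℕ) : ℤ) := by
    intro j; push_cast; rfl
  set J := (Finset.range D).filter (fun j : ℕ => 0 < j ∧ 3 * j < D) with hJ
  set N := (Finset.range D).filter (fun j : ℕ => 0 < j ∧ 3 * j < D ∧
    (3 * ((e : ℤ) * (j : ℤ) % (D : ℤ)) < (D : ℤ) ∨ 2 * (D : ℤ) < 3 * ((e : ℤ) * (j : ℤ) % (D : ℤ)))) with hN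
  set C := (Finset.range D).filter (fun j : ℕ => 0 < j ∧ 3 * j < D ∧
    (D < 3 * (e * j % D) ∧ 3 * (e * j % D) < 2 * D)) with hC
  have hJC : J.card = N.card + C.card := by
    have hdisj : Disjoint N C := by
      rw [Finset.disjoint_left]
      intro j h1 h2
      rw [hN, Finset.mem_filter] at h1
      rw [hC, Finset.mem_filter] at h2
      obtain ⟨_, _, _, h3⟩ := h1
      obtain ⟨_, _, _, h4, h5⟩ := h2
      rw [hcast] at h3
      omega
    have hun : J = N ∪ C := by
      ext j
      rw [hJ, hN, hC, Finset.mem_union, Finset.mem_filter, Finset.mem_filter, Finset.mem_filter, hcast]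
      constructor
      · rintro ⟨h1, h2, h3⟩
        by_cases h4 : D < 3 * (e * j % D) ∧ 3 * (e * j % D) < 2 * D
        · exact Or.inr ⟨h1, h2, h3, h4⟩
        · left
          refine ⟨h1, h2, h3, ?_⟩
          generalize e * j % D = r at *
          omega
      · rintro (⟨h1, h2, h3, _⟩ | ⟨h1, h2, h3, _⟩)
        · exact ⟨h1, h2, h3⟩
        · exact ⟨h1, h2, h3⟩
    rw [hun, Finset.card_union_of_disjoint hdisj]
  have hJcard : J.card = D / 3 := by
    have : J = Finset.Ioc 0 (D / 3) := by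
      ext j
      rw [hJ, Finset.mem_filter, Finset.mem_range, Finset.mem_Ioc]
      omega
    rw [this, Nat.card_Ioc]
    omega
  have hCcard : C.card = ∑ k ∈ Finset.range ((e + 1) / 3),
      ((3 * k + 2) * D / (3 * e) - (3 * k + 1) * D / (3 * e)) := by
    rw [Finset.card_eq_sum_card_fiberwise (f := fun j => e * j / D) (t := Finset.range ((e + 1) / 3))]
    · apply Finset.sum_congr rfl
      intro k hk
      rw [Finset.mem_range] at hk
      have hk2 : 3 * k + 2 ≤ e := by omega
      have hset : C.filter (fun j => e * j / D = k) =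
          Finset.Ioc ((3 * k + 1) * D / (3 * e)) ((3 * k + 2) * D / (3 * e)) := by
        ext j
        rw [Finset.mem_filter, hC, Finset.mem_filter, Finset.mem_range, Finset.mem_Ioc,
          Nat.div_lt_iff_lt_mul (by positivity), Nat.le_div_iff_mul_le (by positivity)]
        have hdm := Nat.div_add_mod (e * j) D
        have hlt := Nat.mod_lt (e * j) hD0
        constructor
        · rintro ⟨⟨_, _, _, h4, h5⟩, h6⟩
          rw [h6] at hdm
          generalize e * j % D = r at *
          constructor <;> nlinarith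
        · rintro ⟨h1, h2⟩
          have h2' : j * (3 * e) ≠ (3 * k + 2) * D := by
            intro hh
            have h3 : 3 ∣ (3 * k + 2) * D := ⟨j * e, by rw [← hh]; ring⟩
            rcases (Nat.Prime.dvd_mul Nat.prime_three).1 h3 with h4 | h4 <;> omega
          have h2'' : j * (3 * e) < (3 * k + 2) * D := lt_of_le_of_ne h2 h2'
          have hq : e * j / D = k := by
            apply Nat.div_eq_of_lt_le
            · nlinarith
            · nlinarith
          rw [hq] at hdm
          have h3j : 3 * j < D := by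
            have : (3 * k + 2) * D ≤ e * D := Nat.mul_le_mul_right _ hk2
            have h7 : e * (3 * j) < e * D := by nlinarith
            exact lt_of_mul_lt_mul_left h7 (Nat.zero_le _)
          have hj0 : 0 < j := by
            rcases Nat.eq_zero_or_pos j with h | h
            · subst h
              exfalso
              have : (3 * k + 1) * D < 0 * (3 * e) := h1
              simp at this
            · exact h
          refine ⟨⟨by omega, hj0, h3j, ?_, ?_⟩, hq⟩
          · generalize e * j % D = r at *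
            nlinarith
          · generalize e * j % D = r at *
            nlinarith
      rw [hset, Nat.card_Ioc]
    · intro j hj
      rw [Finset.mem_coe] at hj
      rw [hC, Finset.mem_filter] at hj
      obtain ⟨_, _, h3, h4, h5⟩ := hj
      rw [Finset.mem_coe, Finset.mem_range]
      show e * j / D < (e + 1) / 3
      have hdm := Nat.div_add_mod (e * j) D
      generalize e * j % D = r at *
      generalize e * j / D = k at *
      have h6 : e * (3 * j) ≤ e * D := Nat.mul_le_mul_left _ h3.le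
      have h7 : (3 * k + 1) * D < e * D := by nlinarith
      have h8 : 3 * k + 1 < e := lt_of_mul_lt_mul_right h7 (Nat.zero_le _)
      omega
  have hsum : (C.card : ℤ) = ∑ k ∈ Finset.range ((e + 1) / 3),
      ((3 * (k : ℤ) + 2) * (D : ℤ) / (3 * (e : ℤ)) - (3 * (k : ℤ) + 1) * (D : ℤ) / (3 * (e : ℤ))) := by
    rw [hCcard]
    push_cast
    apply Finset.sum_congr rfl
    intro k _
    rw [Nat.cast_sub]
    · push_cast
      rfl
    · apply Nat.div_le_div_right
      nlinarith
  have hfin : (N.card : ℤ) = (J.card : ℤ) - (C.card : ℤ) := by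
    rw [hJC]; push_cast; ring
  rw [hfin, hsum, hJcard]
  push_cast
  rfl

private theorem nuE (b d : ℤ) (e : ℕ) (he : 0 < e) (h : (e : ℤ) = d - b) (hd : d % 3 ≠ 0) :
    nu b d = if d % 3 = 1 then 3 * Ef e d - (2 * d - 2) / 3 else -3 * Ef e d + (2 * d - 7) / 3 := by
  have hpos : 0 < d.natAbs := by omega
  have hD3 : d.natAbs % 3 ≠ 0 := by omega
  have h1 : Helper28.T3E.Ne b d = Ef e (d.natAbs : ℤ) := by
    rw [← Ne_eq e d.natAbs he hD3]
    apply Ne_congr _ _ _ _ (by rw [Int.natAbs_natCast]) hpos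
    right
    rw [h]
    have : b + (d - b) = d := by ring
    rw [this]
    exact Int.natAbs_dvd.2 (dvd_refl d)
  rcases lt_trichotomy d 0 with hneg | hz | hp
  · have hab : (d.natAbs : ℤ) = -d := by omega
    have h2 : Ef e (d.natAbs : ℤ) = -1 - Ef e d := by rw [hab, Ef_neg e he d hd]
    unfold nu
    rw [h1, h2, hab]
    generalize Ef e d = E
    have hcase : d % 3 = 1 ∨ d % 3 = 2 := by omega
    rcases hcase with hc | hc
    · have : ¬ d.natAbs % 3 = 1 := by omega
      rw [if_neg this, if_pos hc]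
      omega
    · have : d.natAbs % 3 = 1 := by omega
      have hc1 : ¬ d % 3 = 1 := by omega
      rw [if_pos this, if_neg hc1]
      omega
  · subst hz; simp at hd
  · have hab : (d.natAbs : ℤ) = d := by omega
    unfold nu
    rw [h1, hab]
    have hcase : d % 3 = 1 ∨ d % 3 = 2 := by omega
    rcases hcase with hc | hc
    · have : d.natAbs % 3 = 1 := by omega
      rw [if_pos this, if_pos hc]
    · have : ¬ d.natAbs % 3 = 1 := by omega
      have hc1 : ¬ d % 3 = 1 := by omega
      rw [if_neg this, if_neg hc1]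

private theorem nu_neg (b d : ℤ) (hd : d ≠ 0) : nu (-b) (-d) = nu b d := by
  unfold nu
  rw [Int.natAbs_neg]
  have : Helper28.T3E.Ne (-b) (-d) = Helper28.T3E.Ne b d := by
    apply Ne_congr _ _ _ _ (by simp)
    · omega
    · right; simp
  rw [this]

private theorem main_pos (b d : ℤ) (h3 : 3 ∣ b) (hd : d % 3 ≠ 0) (hpos : 0 < d - b) :
    nu (b + 3 * (d - b)) (d + 3 * (d - b)) = nu b d + 1 := by
  obtain ⟨e, he⟩ : ∃ e : ℕ, (e : ℤ) = d - b := ⟨(d - b).toNat, by omega⟩
  have he0 : 0 < e := by omega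
  rw [← he]
  rw [nuE b d e he0 he hd]
  rw [nuE (b + 3 * (e : ℤ)) (d + 3 * (e : ℤ)) e he0 (by rw [he]; ring) (by omega)]
  rw [Ef_add e he0 d]
  generalize Ef e d = E
  have hcase : d % 3 = 1 ∨ d % 3 = 2 := by omega
  rcases hcase with hc | hc
  · have h4 : (d + 3 * (e : ℤ)) % 3 = 1 := by omega
    rw [if_pos h4, if_pos hc]
    push_cast
    omega
  · have h4 : ¬ (d + 3 * (e : ℤ)) % 3 = 1 := by omega
    have h5 : ¬ d % 3 = 1 := by omega
    rw [if_neg h4, if_neg h5]
    push_cast
    omega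

/-- Module RB. -/
theorem hRB : StRB := by
  intro b d hc h3
  have hd : d % 3 ≠ 0 := by
    intro h
    have h3d : (3 : ℤ) ∣ d := Int.dvd_of_emod_eq_zero h
    have := hc.isUnit_of_dvd' h3 h3d
    rw [Int.isUnit_iff] at this
    omega
  rcases lt_trichotomy (d - b) 0 with hneg | hz | hp
  · have h1 := main_pos (-b) (-d) (by omega) (by omega) (by omega)
    have e1 : -b + 3 * (-d - -b) = -(b + 3 * (d - b)) := by ring
    have e2 : -d + 3 * (-d - -b) = -(d + 3 * (d - b)) := by ring
    rw [e1, e2, nu_neg, nu_neg] at h1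
    · exact h1
    · intro h; subst h; simp at hd
    · intro h; omega
  · exfalso
    have : b = d := by omega
    subst this
    omega
  · exact main_pos b d h3 hd hp

end Pool.Agent.Helper6.T3E
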